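import Pool.Agent.helper53.ORE.Spec
import Pool.Agent.helper22.GS.DSB

set_option autoImplicit false

namespace Pool.Agent.ORE

open Module Pool.Agent.GS

/-- there are fixed vectors with non-zero product -/
theorem DQ2_ex {F V : Type} [Field F] [AddCommGroup V] [Module F V]
    (Q : QuadraticForm F V) (hQ : Nd Q) (y : Equiv.Perm V) (hnt : Nontrivial V)
    (hspan : Submodule.span F {u | y u = u} = ⊤) :
    ∃ u v, y u = u ∧ y v = v ∧ pb Q u v ≠ 0 := by
  by_contra hcon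
  push Not at hcon
  obtain ⟨v₀, hv₀⟩ := exists_ne (0 : V)
  apply hv₀
  apply hQ
  have h1 : pb Q = 0 := by
    apply LinearMap.ext_on hspan
    intro u hu
    rw [LinearMap.zero_apply]
    apply LinearMap.ext_on hspan
    intro v hv
    rw [LinearMap.zero_apply]
    exact hcon u v hu hv
  intro v
  rw [h1]
  rfl

/-- multiples of semisimilarities -/
theorem DQ2_mul {F V : Type} [Field F] [AddCommGroup V] [Module F V]
    {Q : QuadraticForm F V} {y : Equiv.Perm V} {ψ : F ≃+* F} {ν : F}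
    (hy : QSim Q y ψ ν) (c : Fˣ) : QSim Q (sc V c * y) ψ ((c : F) ^ 2 * ν) := by
  refine ⟨mul_ne_zero (pow_ne_zero _ c.ne_zero) hy.ne, (DSB_mul hy.sim c).add,
    (DSB_mul hy.sim c).smul, fun v => ?_⟩
  rw [Equiv.Perm.mul_apply, sc_apply, Q_smul, hy.form]
  ring

theorem DQ2 (ds1 : GS.DS1_stmt) (ds2 : GS.DS2_stmt) (dq : DQ1_stmt) : DQ2_stmt := by
  intro F V _ _ _ _ _ Q hch hQ hn y ψ ν hy hψ l κ hl hκ0 hκ
  have hfr : 0 < finrank F V := by omega
  have hnt : Nontrivial V := Module.nontrivial_of_finrank_pos hfr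
  obtain ⟨v₀, hv₀⟩ := exists_ne (0 : V)
  have hψl : ∀ x, (⇑ψ)^[l] x = x := by
    intro x
    have h4 := DSB_smul hy.sim l x v₀
    rw [hκ, hκ, smul_smul, smul_smul] at h4
    have h5 := smul_left_injective F hv₀ h4
    have h6 : κ * ((⇑ψ)^[l] x - x) = 0 := by
      rw [mul_sub, mul_comm κ ((⇑ψ)^[l] x)]
      exact sub_eq_zero.mpr h5.symm
    rcases mul_eq_zero.mp h6 with h7 | h7
    · exact absurd h7 hκ0
    · exact sub_eq_zero.mp h7
  have hψκ : ψ κ = κ := by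
    have h4 : (y ^ (l + 1)) v₀ = ψ κ • y v₀ := by
      rw [pow_succ', Equiv.Perm.mul_apply, hκ, hy.smul]
    have h5 : (y ^ (l + 1)) v₀ = κ • y v₀ := by
      rw [pow_succ, Equiv.Perm.mul_apply, hκ]
    rw [h4] at h5
    exact smul_left_injective F (DSB_ne hy.sim hv₀) h5
  obtain ⟨lam, hlam, hprod⟩ := ds1 ψ l hl hψ hψl κ hκ0 hψκ
  set c : Fˣ := Units.mk0 lam hlam with hc
  have hcl : (c : F) = lam := rfl
  have hyl : ∀ v, ((sc V c * y) ^ l) v = v := by
    intro v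
    rw [DSB_pow hy.sim, hκ, smul_smul, hcl, mul_comm, hprod, one_smul]
  have hy' := DQ2_mul hy c
  have hspan : Submodule.span F {u | (sc V c * y) u = u} = ⊤ :=
    ds2 ψ l hl hψ hψl (sc V c * y) hy'.add hy'.smul hyl
  obtain ⟨u, v, hu, hv, huv⟩ := DQ2_ex Q hQ (sc V c * y) hnt hspan
  have hμν : pb Q u v = (c : F) ^ 2 * ν * ψ (pb Q u v) := by
    have h1 := hy'.pb u v
    rw [hu, hv] at h1
    exact h1
  obtain ⟨e0, f0, he0, hf0, h00, h01, h02, -⟩ := dq Q hch hQ (sc V c * y) ψ _ hy' l hl hψ hψl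
    hyl (pb Q u v) huv hμν 0 (fun _ => 0) (fun _ => 0) (by omega) (fun i => i.elim0)
    (fun i => i.elim0) (fun i => i.elim0)
  obtain ⟨e1, f1, he1, hf1, h10, h11, h12, h13⟩ := dq Q hch hQ (sc V c * y) ψ _ hy' l hl hψ hψl
    hyl (pb Q u v) huv hμν 1 (fun _ => e0) (fun _ => f0) (by omega) (fun i => ⟨he0, hf0⟩)
    (fun i => ⟨h00, h01⟩)
    (fun i j => ⟨pb_self2 hch Q e0, pb_self2 hch Q f0, by rw [if_pos (Subsingleton.elim i j), h02]⟩)
  obtain ⟨h14, h15, h16, h17⟩ := h13 0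
  have hs : ∀ w, lam • y w = (sc V c * y) w := by
    intro w
    rw [Equiv.Perm.mul_apply, sc_apply, hcl]
  refine ⟨⟨lam, pb Q u v, ![e0, e1], ![f0, f1], hlam, huv, ?_, ?_, ?_⟩, hψl⟩
  · intro i
    rw [hs, hs]
    fin_cases i
    · exact ⟨he0, hf0⟩
    · exact ⟨he1, hf1⟩
  · intro i
    fin_cases i
    · exact ⟨h00, h01⟩
    · exact ⟨h10, h11⟩
  · intro i j
    fin_cases i <;> fin_cases j
    · exact ⟨pb_self2 hch Q e0, pb_self2 hch Q f0, by rw [if_pos rfl]; exact h02⟩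
    · refine ⟨?_, ?_, ?_⟩
      · change pb Q e0 e1 = 0
        rw [pb_symm]; exact h14
      · change pb Q f0 f1 = 0
        rw [pb_symm]; exact h17
      · change pb Q e0 f1 = _
        rw [if_neg (by decide), pb_symm]; exact h16
    · refine ⟨h14, h17, ?_⟩
      rw [if_neg (by decide)]; exact h15
    · exact ⟨pb_self2 hch Q e1, pb_self2 hch Q f1, by rw [if_pos rfl]; exact h12⟩

end Pool.Agent.ORE
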